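import Pool.Agent.Y969.GP.Def3

/-!
Job GP-NS of helper969: almost all shift vectors are separated (adaptation of
`Pool.Agent.TH767.GS.NS`, helper767).
-/

set_option autoImplicit false

open Complex Filter Topology MeasureTheory Set
open Pool.Agent.Y969.GP

namespace Pool.Agent.Y961.GP

noncomputable section

lemma slab_le (T r a : ℝ) : (volume.restrict (Icc 0 T)) {y : ℝ | |y - a| < r} ≤
    ENNReal.ofReal (2 * r) := by
  refine (Measure.restrict_apply_le _ _).trans ?_
  have : {y : ℝ | |y - a| < r} = Metric.ball a r := by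
    ext y
    simp [Real.dist_eq]
  rw [this, Real.volume_ball]

lemma pair_le {ι : Type} [Fintype ι] [DecidableEq ι] (T r : ℝ) (p q : ι) (hpq : p ≠ q) :
    (Measure.pi fun _ : ι => (volume.restrict (Icc (0:ℝ) T))) {γ | |γ p - γ q| < r} ≤
      ENNReal.ofReal (2 * r) * ENNReal.ofReal T ^ (Fintype.card ι - 1) := by
  set μ : ι → Measure ℝ := fun _ => volume.restrict (Icc (0:ℝ) T) with hμ
  have hA : MeasurableSet {γ : ι → ℝ | |γ p - γ q| < r} := by
    apply measurableSet_lt
    · exact ((measurable_pi_apply p).sub (measurable_pi_apply q)).abs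
    · exact measurable_const
  have hf : Measurable ({γ : ι → ℝ | |γ p - γ q| < r}.indicator (fun _ => (1 : ENNReal))) :=
    measurable_const.indicator hA
  rw [← lintegral_indicator_one hA]
  have h0 := lintegral_eq_lmarginal_univ (μ := μ)
    (f := {γ : ι → ℝ | |γ p - γ q| < r}.indicator (fun _ => (1 : ENNReal))) (fun _ => 0)
  have h0' : ∫⁻ (a : ι → ℝ), {γ : ι → ℝ | |γ p - γ q| < r}.indicator 1 a ∂Measure.pi μ =
    ∫⁻ (a : ι → ℝ), {γ : ι → ℝ | |γ p - γ q| < r}.indicator (fun _ => (1 : ENNReal)) a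
      ∂Measure.pi μ := rfl
  rw [h0', h0, lmarginal_erase' _ hf (Finset.mem_univ p)]
  have h1 : (fun x : ι → ℝ => ∫⁻ xᵢ, {γ : ι → ℝ | |γ p - γ q| < r}.indicator
      (fun _ => (1 : ENNReal)) (Function.update x p xᵢ) ∂μ p) ≤
      fun _ => ENNReal.ofReal (2 * r) := by
    intro x
    have h2 : (fun xᵢ : ℝ => {γ : ι → ℝ | |γ p - γ q| < r}.indicator
        (fun _ => (1 : ENNReal)) (Function.update x p xᵢ)) =
        {y : ℝ | |y - x q| < r}.indicator (fun _ => (1 : ENNReal)) := by
      funext y
      by_cases h : |y - x q| < r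
      · rw [Set.indicator_of_mem, Set.indicator_of_mem]
        · exact h
        · show |Function.update x p y p - Function.update x p y q| < r
          rw [Function.update_self, Function.update_of_ne hpq.symm]
          exact h
      · rw [Set.indicator_of_notMem, Set.indicator_of_notMem]
        · exact h
        · show ¬ |Function.update x p y p - Function.update x p y q| < r
          rw [Function.update_self, Function.update_of_ne hpq.symm]
          exact h
    show ∫⁻ xᵢ, {γ : ι → ℝ | |γ p - γ q| < r}.indicator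
        (fun _ => (1 : ENNReal)) (Function.update x p xᵢ) ∂μ p ≤ _
    rw [h2, lintegral_indicator]
    · simp only [lintegral_const, one_mul, Measure.restrict_apply_univ]
      exact slab_le T r (x q)
    · apply measurableSet_lt
      · exact (measurable_id.sub measurable_const).abs
      · exact measurable_const
  refine (lmarginal_mono h1 _).trans ?_
  unfold lmarginal
  rw [lintegral_const, Measure.pi_univ]
  gcongr
  have h3 : ∀ i : {x // x ∈ Finset.univ.erase p}, (μ i) univ = ENNReal.ofReal T := by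
    intro i
    simp [hμ]
  rw [Finset.prod_congr rfl (fun i _ => h3 i), Finset.prod_const, Finset.card_univ,
    Fintype.card_coe, Finset.card_erase_of_mem (Finset.mem_univ p), Finset.card_univ]

lemma one_le {ι : Type} [Fintype ι] [DecidableEq ι] (T a : ℝ) (p : ι) :
    (Measure.pi fun _ : ι => (volume.restrict (Icc (0:ℝ) T))) {γ | γ p < a} ≤
      ENNReal.ofReal a * ENNReal.ofReal T ^ (Fintype.card ι - 1) := by
  have h1 : {γ : ι → ℝ | γ p < a} = Set.univ.pi (fun i => if i = p then Iio a else univ) := by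
    ext γ
    simp only [Set.mem_pi, Set.mem_univ, true_implies]
    constructor
    · intro h i
      by_cases hi : i = p
      · rw [if_pos hi, hi]; exact h
      · rw [if_neg hi]; exact Set.mem_univ _
    · intro h
      have := h p
      rw [if_pos rfl] at this
      exact this
  rw [h1, Measure.pi_pi, ← Finset.mul_prod_erase _ _ (Finset.mem_univ p), if_pos rfl]
  have h2 : (volume.restrict (Icc (0:ℝ) T)) (Iio a) ≤ ENNReal.ofReal a := by
    rw [Measure.restrict_apply measurableSet_Iio]
    refine (measure_mono (show Iio a ∩ Icc 0 T ⊆ Icc 0 a from fun x hx => ⟨hx.2.1, hx.1.le⟩)).trans ?_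
    rw [Real.volume_Icc, sub_zero]
  have h3 : ∏ i ∈ Finset.univ.erase p, (volume.restrict (Icc (0:ℝ) T))
      (if i = p then Iio a else univ) = ENNReal.ofReal T ^ (Fintype.card ι - 1) := by
    have h4 : ∀ i ∈ Finset.univ.erase p, (volume.restrict (Icc (0:ℝ) T))
        (if i = p then Iio a else univ) = ENNReal.ofReal T := by
      intro i hi
      rw [if_neg (Finset.ne_of_mem_erase hi)]
      simp
    rw [Finset.prod_congr rfl h4, Finset.prod_const, Finset.card_erase_of_mem (Finset.mem_univ p),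
      Finset.card_univ]
  rw [h3]
  gcongr

theorem t_NS : S_NS := by
  intro n
  refine ⟨n + 2 * n ^ 2 + 1, by positivity, fun a T ha haT => ?_⟩
  have hT0 : (0 : ℝ) < T := by linarith
  set μ : Measure (Fin n → ℝ) := Measure.pi fun _ : Fin n => (volume.restrict (Icc (0:ℝ) T)) with hμ
  set D : Set (Fin n → ℝ) := Set.univ.pi fun _ => Icc (0:ℝ) T with hD
  have hDm : MeasurableSet D := MeasurableSet.univ_pi fun _ => measurableSet_Icc
  have hres : (volume : Measure (Fin n → ℝ)).restrict D = μ := by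
    rw [hμ, hD, MeasureTheory.volume_pi, Measure.restrict_pi_pi]
  set U : Set (Fin n → ℝ) := (⋃ j : Fin n, {c : Fin n → ℝ | c j < a}) ∪
    ⋃ i : Fin n × Fin n, {c : Fin n → ℝ | i.1 ≠ i.2 ∧ |c i.1 - c i.2| < a} with hU
  have hsub : {c : Fin n → ℝ | ∀ j, 0 ≤ c j ∧ c j ≤ T} \ Gd n a T ⊆ U ∩ D := by
    rintro c ⟨hc, hc2⟩
    refine ⟨?_, fun j _ => hc j⟩
    by_cases h : ∀ j, a ≤ c j
    · right
      have h2 : ¬ ∀ i j, i ≠ j → a ≤ |c i - c j| := fun h2 => hc2 ⟨fun j => ⟨h j, (hc j).2⟩, h2⟩
      push Not at h2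
      obtain ⟨p, q, hpq, h3⟩ := h2
      exact Set.mem_iUnion.2 ⟨(p, q), hpq, h3⟩
    · left
      push Not at h
      obtain ⟨i, hi⟩ := h
      exact Set.mem_iUnion.2 ⟨i, hi⟩
  have hX : 0 ≤ a * T ^ (n - 1) := by positivity
  have hone : ∀ j : Fin n, μ {c : Fin n → ℝ | c j < a} ≤ ENNReal.ofReal (a * T ^ (n - 1)) := by
    intro j
    have h := one_le T a j
    rw [Fintype.card_fin, ← ENNReal.ofReal_pow hT0.le, ← ENNReal.ofReal_mul ha.le] at h
    exact h
  have hpair : ∀ i : Fin n × Fin n, μ {c : Fin n → ℝ | i.1 ≠ i.2 ∧ |c i.1 - c i.2| < a} ≤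
      ENNReal.ofReal (2 * (a * T ^ (n - 1))) := by
    rintro ⟨p, q⟩
    by_cases hpq : p = q
    · have : {γ : Fin n → ℝ | (p, q).1 ≠ (p, q).2 ∧ |γ (p, q).1 - γ (p, q).2| < a} = ∅ := by
        ext γ
        simp [hpq]
      rw [this, measure_empty]
      exact zero_le
    · have h4 : {γ : Fin n → ℝ | (p, q).1 ≠ (p, q).2 ∧ |γ (p, q).1 - γ (p, q).2| < a} ⊆
          {γ : Fin n → ℝ | |γ p - γ q| < a} := fun γ hγ => hγ.2
      refine (measure_mono h4).trans ?_
      refine (pair_le T a p q hpq).trans ?_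
      rw [Fintype.card_fin, ← ENNReal.ofReal_pow hT0.le, ← ENNReal.ofReal_mul (by positivity)]
      apply ENNReal.ofReal_le_ofReal
      apply le_of_eq
      ring
  have hfin : (n : ℝ) * (a * T ^ (n - 1)) + (n : ℝ) ^ 2 * (2 * (a * T ^ (n - 1))) ≤
      (n + 2 * n ^ 2 + 1) * (a / T) * T ^ n := by
    rcases Nat.eq_zero_or_pos n with h | h
    · subst h
      simp
      positivity
    · have e : T ^ n = T ^ (n - 1) * T := by
        rw [← pow_succ]
        congr 1
        omega
      have e2 : (n + 2 * n ^ 2 + 1) * (a / T) * T ^ n = ((n : ℝ) + 2 * n ^ 2 + 1) * (a * T ^ (n - 1)) := by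
        rw [e]
        field_simp
      rw [e2]
      nlinarith
  calc volume ({c : Fin n → ℝ | ∀ j, 0 ≤ c j ∧ c j ≤ T} \ Gd n a T) ≤ volume (U ∩ D) :=
        measure_mono hsub
    _ = μ U := by rw [← hres, Measure.restrict_apply' hDm]
    _ ≤ μ (⋃ j : Fin n, {c : Fin n → ℝ | c j < a}) +
        μ (⋃ i : Fin n × Fin n, {c : Fin n → ℝ | i.1 ≠ i.2 ∧ |c i.1 - c i.2| < a}) :=
        measure_union_le _ _
    _ ≤ ∑ j : Fin n, μ {c : Fin n → ℝ | c j < a} +
        ∑ i : Fin n × Fin n, μ {c : Fin n → ℝ | i.1 ≠ i.2 ∧ |c i.1 - c i.2| < a} := by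
        gcongr
        · exact measure_iUnion_fintype_le _ _
        · exact measure_iUnion_fintype_le _ _
    _ ≤ ∑ _j : Fin n, ENNReal.ofReal (a * T ^ (n - 1)) +
        ∑ _i : Fin n × Fin n, ENNReal.ofReal (2 * (a * T ^ (n - 1))) := by
        gcongr with j _ i _
        · exact hone j
        · exact hpair i
    _ = ENNReal.ofReal ((n : ℝ) * (a * T ^ (n - 1)) + (n : ℝ) ^ 2 * (2 * (a * T ^ (n - 1)))) := by
        rw [Finset.sum_const, Finset.sum_const, Finset.card_univ, Finset.card_univ,
          Fintype.card_prod, Fintype.card_fin, nsmul_eq_mul, nsmul_eq_mul,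
          ← ENNReal.ofReal_natCast, ← ENNReal.ofReal_natCast, ← ENNReal.ofReal_mul (by positivity),
          ← ENNReal.ofReal_mul (by positivity), ← ENNReal.ofReal_add (by positivity) (by positivity)]
        congr 1
        push_cast
        ring
    _ ≤ _ := ENNReal.ofReal_le_ofReal hfin

end

end Pool.Agent.Y961.GP
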